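import Mathlib
import Pool.Agent.H29.SFT

set_option autoImplicit false

namespace Pool.Agent.Results.MP_560fdc_co.Quadratic
open Set Filter Pool.Agent.H29.SFT

/-- A path from `p` to `q` labelled by the word `w`. -/
def Path {V A : Type} (E : V → A → V → Prop) (p : V) (w : List A) (q : V) : Prop :=
  ∃ v : ℕ → V, v 0 = p ∧ v w.length = q ∧ ∀ i : Fin w.length, E (v i) (w.get i) (v (i + 1))

/-- Every vertex has a word synchronizing to it. -/
def Sync {V A : Type} (E : V → A → V → Prop) : Prop :=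
  ∀ q, ∃ w : List A, (∃ p r, Path E p w r) ∧ ∀ p r, Path E p w r → r = q

/-- Least number of vertices of a synchronizing deterministic presentation. -/
noncomputable def s {A : Type} (X : Set (ℤ → A)) : ℕ :=
  sInf {n | ∃ (V : Type) (_ : Fintype V) (E : V → A → V → Prop),
    Fintype.card V = n ∧ Det E ∧ Sync E ∧ shift E = X}

abbrev V (n : ℕ) : Type := ZMod (n + 1) ⊕ ZMod (n + 2)

def E (n : ℕ) : V n → Bool × Bool → V n → Prop
  | .inl p, c, q => q = .inl (p + 1) ∧ (c.1 = true ↔ p = 0) ∧ (c.1 = true → c.2 = false)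
  | .inr p, c, q => q = .inr (p + 1) ∧ (c.2 = true ↔ p = 0)

def nx {n : ℕ} : V n → ℤ → V n
  | .inl p, t => .inl (p + t)
  | .inr p, t => .inr (p + t)

theorem nx_zero {n : ℕ} (p : V n) : nx p 0 = p := by cases p <;> simp [nx]

theorem E_nx {n : ℕ} {p q : V n} {t : ℤ} {c : Bool × Bool} (h : E n (nx p t) c q) :
    q = nx p (t + 1) := by
  cases p <;> simpa [nx, add_assoc] using h.1

theorem walk {n L : ℕ} {c : ℕ → Bool × Bool} {v : ℕ → V n}
    (h : ∀ i < L, E n (v i) (c i) (v (i + 1))) : ∀ i ≤ L, v i = nx (v 0) i := by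
  intro i
  induction i with
  | zero => exact fun _ => (nx_zero _).symm
  | succ i ih =>
    intro hi
    have := h i hi
    rw [ih (by omega)] at this
    simpa using E_nx this

theorem crt (n : ℕ) (p : ZMod (n + 1)) (q : ZMod (n + 2)) :
    ∃ i < (n + 1) * (n + 2), p + ((i : ℕ) : ℤ) = 0 ∧ q + ((i : ℕ) : ℤ) = 0 := by
  have hc : Nat.Coprime (n + 1) (n + 2) := by simp [Nat.coprime_self_add_right, show n + 2 = (n + 1) + 1 from rfl]
  obtain ⟨i, h1, h2⟩ := Nat.chineseRemainder hc (-p).val (-q).val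
  refine ⟨i % ((n + 1) * (n + 2)), Nat.mod_lt _ (by positivity), ?_, ?_⟩
  · have := ((Nat.mod_modEq i _).of_mul_right (n + 2)).trans h1
    rw [Int.cast_natCast, (ZMod.natCast_eq_natCast_iff _ _ _).2 this]; simp
  · have := ((Nat.mod_modEq i _).of_mul_left (n + 1)).trans h2
    rw [Int.cast_natCast, (ZMod.natCast_eq_natCast_iff _ _ _).2 this]; simp

theorem dfn (n : ℕ) : Definite ((n + 1) * (n + 2)) (E n) := by
  intro c v v' h h'
  have w := walk h
  have w' := walk h'
  rw [w _ le_rfl, w' _ le_rfl]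
  congr 1
  have k : ∀ i < (n + 1) * (n + 2), E n (nx (v 0) i) (c i) (v (i + 1)) ∧
      E n (nx (v' 0) i) (c i) (v' (i + 1)) := fun i hi => by
    rw [← w i hi.le, ← w' i hi.le]; exact ⟨h i hi, h' i hi⟩
  rcases hp : v 0 with p | p <;> rcases hq : v' 0 with q | q <;> rw [hp, hq] at k
  · obtain ⟨i, hi, a, -⟩ := crt n p 0
    obtain ⟨a1, a2⟩ := k i hi
    rw [add_right_cancel (a.trans (a2.2.1.1 (a1.2.1.2 a)).symm)]
  · obtain ⟨i, hi, a, b⟩ := crt n p q
    obtain ⟨a1, a2⟩ := k i hi
    exact absurd (a2.2.2 b) (by rw [a1.2.2 (a1.2.1.2 a)]; decide)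
  · obtain ⟨i, hi, a, b⟩ := crt n q p
    obtain ⟨a2, a1⟩ := k i hi
    exact absurd (a2.2.2 b) (by rw [a1.2.2 (a1.2.1.2 a)]; decide)
  · obtain ⟨i, hi, -, a⟩ := crt n 0 p
    obtain ⟨a1, a2⟩ := k i hi
    rw [add_right_cancel (a.trans (a2.2.1 (a1.2.2 a)).symm)]

theorem det (n : ℕ) : Det (E n) := by
  rintro (p | p) c q r h h' <;> exact h.1.trans h'.1.symm

theorem sync (n : ℕ) : Sync (E n) := by
  intro q
  have : ∀ (p : V n) (t : ℤ), ∃ c, E n (nx p t) c (nx p (t + 1)) := by
    rintro (p | p) t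
    · exact ⟨(decide (p + t = 0), false), by simp [nx, add_assoc], by simp, by simp⟩
    · exact ⟨(false, decide (p + t = 0)), by simp [nx, add_assoc], by simp⟩
  choose c hc using this q
  have hd := dfn n
  generalize (n + 1) * (n + 2) = L at hd
  have h1 : ∀ i < L, E n (nx q (i - L)) (c (i - L)) (nx q ((i + 1 : ℕ) - L)) := fun i _ => by
    convert hc (i - L) using 2
    push_cast; ring
  refine ⟨List.ofFn fun i : Fin L => c ((i : ℕ) - L), ⟨_, _, fun i => nx q (i - L), rfl, rfl,
    fun i => ?_⟩, ?_⟩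
  · simpa using h1 i (by simpa using i.2)
  · rintro p r ⟨v, -, rfl, hv⟩
    rw [List.length_ofFn, hd _ v (fun i => nx q (i - L)) (fun i hi => ?_) h1]
    · simp [nx_zero]
    · simpa using hv ⟨i, by simpa using hi⟩

theorem walkZ {n : ℕ} {x : ℤ → Bool × Bool} (h : x ∈ shift (E n)) :
    ∃ p : V n, ∀ t, E n (nx p t) (x t) (nx p (t + 1)) := by
  obtain ⟨v, hv⟩ := h
  have : ∀ t : ℤ, v t = nx (v 0) t := by
    intro t
    induction t using Int.induction_on with
    | zero => exact (nx_zero _).symm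
    | succ i ih => have := hv i; rw [ih] at this; exact E_nx this
    | pred i ih =>
      have := hv (-i - 1)
      rw [sub_add_cancel, ih] at this
      revert this
      rcases v (-i - 1) with p | p <;> rcases v 0 with q | q <;> intro this
      · have := Sum.inl.inj this.1
        simp only [nx, Int.cast_sub, Int.cast_one, Sum.inl.injEq]
        linear_combination -this
      · exact absurd this.1 (by simp [nx])
      · exact absurd this.1 (by simp [nx])
      · have := Sum.inr.inj this.1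
        simp only [nx, Int.cast_sub, Int.cast_one, Sum.inr.injEq]
        linear_combination -this
  exact ⟨v 0, fun t => by rw [← this, ← this]; exact hv t⟩

theorem memA {n : ℕ} (f : ℤ → Bool) (h : ∀ t : ℤ, (t : ZMod (n + 1)) = 0 → f t = false) :
    (fun t : ℤ => (decide ((t : ZMod (n + 1)) = 0), f t)) ∈ shift (E n) :=
  ⟨fun t => .inl t, fun t => ⟨by simp, by simp, by simpa using h t⟩⟩

theorem memB {n : ℕ} (f : ℤ → Bool) :
    (fun t : ℤ => (f t, decide ((t : ZMod (n + 2)) = 0))) ∈ shift (E n) :=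
  ⟨fun t => .inr t, fun t => ⟨by simp, by simp⟩⟩

theorem m_ge (n : ℕ) : (n + 1) * (n + 2) ≤ minStep (shift (E n)) := by
  set L := (n + 1) * (n + 2) with hL
  have hL0 : 0 < L := by positivity
  refine le_minStep ⟨_, def_step (dfn n)⟩
    (fun t => (decide ((t : ZMod (n + 1)) = 0 ∧ t < L), decide ((t : ZMod (n + 2)) = 0 ∧ 0 < t)))
    (fun h => ?_) fun i => ?_
  · obtain ⟨p | p, hp⟩ := walkZ h
    · have h0 : p = 0 := by simpa using (hp 0).2.1.1 (by simpa using hL0)
      have := (hp L).2.1.2 (by simp [h0, hL])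
      simp at this
    · have h1 : ((n : ZMod (n + 2)) + 2) = 0 := by exact_mod_cast ZMod.natCast_self (n + 2)
      have h0 : p = 0 := by
        have := (hp L).2.1 (by simp [hL, h1]; positivity)
        simpa [hL, h1] using this
      have := (hp 0).2.2 (by simp [h0])
      simp at this
  · rcases le_or_gt i 0 with hi | hi
    · refine ⟨_, memA (fun t => decide ((t : ZMod (n + 2)) = 0 ∧ 0 < t ∧ t < L)) fun t ht => ?_,
        fun j hj => ?_⟩
      · rw [decide_eq_false_iff_not]
        rintro ⟨h1, h2, h3⟩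
        rw [ZMod.intCast_zmod_eq_zero_iff_dvd] at ht h1
        have hc : IsCoprime ((n + 1 : ℕ) : ℤ) ((n + 2 : ℕ) : ℤ) := ⟨-1, 1, by push_cast; ring⟩
        have := Int.le_of_dvd h2 (hc.mul_dvd ht h1)
        rw [hL] at h3
        push_cast at h3 this
        omega
      · have : i + j < L := by omega
        simp [this]
    · refine ⟨_, memB (fun t => decide ((t : ZMod (n + 1)) = 0 ∧ t < L)), fun j hj => ?_⟩
      have : 0 < i + j := by omega
      simp [this]

theorem s_mem (n : ℕ) : 2 * n + 3 ∈ {k | ∃ (V : Type) (_ : Fintype V) (F : V → Bool × Bool → V → Prop),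
    Fintype.card V = k ∧ Det F ∧ Sync F ∧ shift F = shift (E n)} :=
  ⟨V n, inferInstance, E n, by simp; ring, det n, sync n, rfl⟩

theorem s_ge (n : ℕ) : n ≤ s (shift (E n)) := by
  obtain ⟨W, _, F, h1, -, -, h2⟩ := Nat.sInf_mem ⟨_, s_mem n⟩
  by_contra hc
  obtain ⟨v, hv⟩ := h2 ▸ memA (n := n) (fun _ => false) fun _ _ => rfl
  have key : ∀ i j : Fin n, i < j → v (i + 1 : ℕ) ≠ v (j + 1 : ℕ) := by
    intro i j hij he
    have := pump (E := F) v (false, false) _ _ (by simpa using hij) (fun t a b => ?_) he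
    · rw [h2] at this
      obtain ⟨p | p, hp⟩ := walkZ this
      · simpa using (hp (-p).val).2.1.2 (by simp)
      · simpa using (hp (-p).val).2.2 (by simp)
    · convert hv t using 2
      symm
      rw [decide_eq_false_iff_not, ZMod.intCast_zmod_eq_zero_iff_dvd]
      intro h
      have := Int.le_of_dvd (by omega) h
      have := j.2
      omega
  obtain ⟨i, j, hij, he⟩ := Fintype.exists_ne_map_eq_of_card_lt (fun i : Fin n => v (i + 1 : ℕ))
    (by rw [h1, Fintype.card_fin]; exact not_le.1 hc)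
  rcases lt_or_gt_of_ne hij with h | h
  · exact key i j h he
  · exact key j i h he.symm

theorem result : ∃ c : ℝ, 0 < c ∧ ∃ X : ℕ → Set (ℤ → Bool × Bool), (∀ n, ∃ M, MStep M (X n)) ∧
    Tendsto (fun n => s (X n)) atTop atTop ∧ ∀ n, c * (s (X n) : ℝ) ^ 2 ≤ minStep (X n) := by
  refine ⟨1 / 5, by norm_num, fun n => shift (E n), fun n => ⟨_, def_step (dfn n)⟩,
    tendsto_atTop_mono s_ge tendsto_id, fun n => ?_⟩
  have h1 : (s (shift (E n)) : ℝ) ≤ 2 * n + 3 := by exact_mod_cast Nat.sInf_le (s_mem n)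
  have h2 : ((n + 1) * (n + 2) : ℝ) ≤ minStep (shift (E n)) := by exact_mod_cast m_ge n
  have h3 := pow_le_pow_left₀ (Nat.cast_nonneg _) h1 2
  have h4 : (0 : ℝ) ≤ n := Nat.cast_nonneg _
  nlinarith

end Pool.Agent.Results.MP_560fdc_co.Quadratic
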